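import Pool.Agent.Van2H.Kernel

set_option autoImplicit false

/-!
The order of vanishing at `1` of polynomials of degree at most `n`, all of whose coefficients but
the lowest one are at most `H` times the lowest one, is at most `2 ⌊√((n + 1/2) log (1 + H))⌋`.
-/

open Finset Polynomial

namespace Pool.Agent.Van2H

/-- summing a sequence against the coefficients -/
noncomputable def Lin (g : ℕ → ℂ) : ℂ[X] →ₗ[ℂ] ℂ :=
  Polynomial.lsum (fun j => (g j) • (LinearMap.id : ℂ →ₗ[ℂ] ℂ))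

theorem Lin_monomial (g : ℕ → ℂ) (j : ℕ) (a : ℂ) : Lin g (monomial j a) = g j * a := by
  unfold Lin
  rw [lsum_apply, sum_monomial_index]
  · simp
  · simp

theorem Lin_eq_sum (g : ℕ → ℂ) (P : ℂ[X]) (n : ℕ) (h : P.natDegree ≤ n) :
    Lin g P = ∑ j ∈ range (n + 1), P.coeff j * g j := by
  conv_lhs => rw [P.as_sum_range' (n + 1) (by omega)]
  rw [map_sum]
  refine sum_congr rfl (fun j _ => ?_)
  rw [Lin_monomial, mul_comm]

theorem Lin_step (g : ℕ → ℂ) (S : ℂ[X]) :
    Lin g ((X - 1) * S) = Lin (fwdDiff 1 g) S := by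
  induction S using Polynomial.induction_on' with
  | add p q hp hq => rw [mul_add, map_add, map_add, hp, hq]
  | monomial j a =>
    rw [sub_mul, one_mul, X_mul_monomial, map_sub, Lin_monomial, Lin_monomial, Lin_monomial,
      fwdDiff]
    ring

theorem Lin_pow (g : ℕ → ℂ) (k : ℕ) (S : ℂ[X]) :
    Lin g ((X - 1) ^ k * S) = Lin ((fwdDiff 1)^[k] g) S := by
  induction k generalizing g with
  | zero => simp
  | succ k ih =>
    rw [pow_succ', mul_assoc, Lin_step, ih, Function.iterate_succ_apply]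

theorem fwd_zero (f : ℝ[X]) (k : ℕ) (hf : f.natDegree < k) :
    (fwdDiff 1)^[k] (fun j : ℕ => ((f.eval (j : ℝ) : ℝ) : ℂ)) = 0 := by
  funext y
  rw [fwdDiff_iter_eq_sum_shift]
  have h := congrFun (Polynomial.fwdDiff_iter_eq_zero_of_degree_lt hf) (y : ℝ)
  rw [fwdDiff_iter_eq_sum_shift] at h
  have h2 := congrArg (fun t : ℝ => (t : ℂ)) h
  simp only [Pi.zero_apply, Complex.ofReal_zero] at h2
  rw [Pi.zero_apply, ← h2]
  push_cast
  refine sum_congr rfl (fun i _ => ?_)
  simp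

/-- the moments of the coefficients vanish -/
theorem moments {P : ℂ[X]} {k n : ℕ} (hk : (X - 1) ^ k ∣ P) (hn : P.natDegree ≤ n) (f : ℝ[X])
    (hf : f.natDegree < k) : ∑ j ∈ range (n + 1), P.coeff j * ((f.eval (j : ℝ) : ℝ) : ℂ) = 0 := by
  rw [← Lin_eq_sum (fun j : ℕ => ((f.eval (j : ℝ) : ℝ) : ℂ)) P n hn]
  obtain ⟨S, rfl⟩ := hk
  rw [Lin_pow, fwd_zero f k hf]
  have : (0 : ℕ → ℂ) = fun _ => 0 := rfl
  unfold Lin
  rw [lsum_apply]
  simp [Polynomial.sum]

/-- the main inequality -/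
theorem order_le {P : ℂ[X]} {k n r : ℕ} {H : ℝ} (hH : 0 ≤ H) (hk : (X - 1) ^ k ∣ P)
    (hn : P.natDegree ≤ n) (h0 : P ≠ 0)
    (h1 : ∀ j, j ≠ P.natTrailingDegree → ‖P.coeff j‖ ≤ H * ‖P.trailingCoeff‖)
    (hr : 1 ≤ r) (hrn : r ≤ n)
    (hT : (1 + H) * (n.choose r : ℝ) < ((n + r).choose r : ℝ)) : k ≤ 2 * (r - 1) := by
  by_contra hcon
  rw [not_le] at hcon
  set m := P.natTrailingDegree with hm
  have hmn : m ≤ n := (natTrailingDegree_le_natDegree P).trans hn
  have ht : 0 < ‖P.trailingCoeff‖ := by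
    rw [norm_pos_iff]
    exact trailingCoeff_nonzero_iff_nonzero.2 h0
  have hdeg : ((Q n r) ^ 2).natDegree ≤ 2 * (r - 1) :=
    natDegree_pow_le.trans (Nat.mul_le_mul_left _ (natDegree_Q n r))
  have hmom := moments hk hn (((Q n r) ^ 2).comp (X - C (m : ℝ))) (by
    rw [natDegree_comp, natDegree_X_sub_C, mul_one]
    omega)
  obtain ⟨d, hd⟩ := Nat.exists_eq_add_of_le hmn
  have hsplit : n + 1 = m + (d + 1) := by omega
  rw [hsplit, sum_range_add, sum_range_succ'] at hmom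
  have hz : ∑ j ∈ range m, P.coeff j *
      (((((Q n r) ^ 2).comp (X - C (m : ℝ))).eval (j : ℝ) : ℝ) : ℂ) = 0 := by
    refine sum_eq_zero (fun j hj => ?_)
    rw [coeff_eq_zero_of_lt_natTrailingDegree (mem_range.1 hj), zero_mul]
  rw [hz, zero_add] at hmom
  simp only [add_zero, eval_comp, eval_sub, eval_X, eval_C, eval_pow] at hmom
  have hz2 : ∀ i : ℕ, ((m + (i + 1) : ℕ) : ℝ) - (m : ℝ) = ((i + 1 : ℕ) : ℝ) := by
    intro i
    push_cast
    ring
  simp only [hz2, sub_self] at hmom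
  set q0 := (Q n r).eval 0 with hq0
  have hq := Q_zero hr hrn
  have hnorm := Q_norm hr hrn
  rw [← hq0] at hq
  have h2 : ‖P.trailingCoeff‖ * q0 ^ 2 ≤
      ‖P.trailingCoeff‖ * (H * ∑ y ∈ range n, ((Q n r).eval ((y + 1 : ℕ) : ℝ)) ^ 2) := by
    have h3 : P.coeff m * ((q0 ^ 2 : ℝ) : ℂ) = - ∑ i ∈ range d, P.coeff (m + (i + 1)) *
        ((((Q n r).eval ((i + 1 : ℕ) : ℝ)) ^ 2 : ℝ) : ℂ) :=
      eq_neg_of_add_eq_zero_right hmom
    have h4 : ‖P.coeff m * ((q0 ^ 2 : ℝ) : ℂ)‖ = ‖P.trailingCoeff‖ * q0 ^ 2 := by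
      rw [norm_mul, Complex.norm_real]
      have : P.coeff m = P.trailingCoeff := rfl
      rw [this, Real.norm_of_nonneg (sq_nonneg _)]
    rw [← h4, h3, norm_neg]
    refine (norm_sum_le _ _).trans ?_
    calc ∑ i ∈ range d, ‖P.coeff (m + (i + 1)) *
          ((((Q n r).eval ((i + 1 : ℕ) : ℝ)) ^ 2 : ℝ) : ℂ)‖
        ≤ ∑ i ∈ range d, (‖P.trailingCoeff‖ * H) * ((Q n r).eval ((i + 1 : ℕ) : ℝ)) ^ 2 := by
          refine sum_le_sum (fun i _ => ?_)
          rw [norm_mul, Complex.norm_real, Real.norm_of_nonneg (sq_nonneg _)]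
          have := h1 (m + (i + 1)) (by omega)
          nlinarith [sq_nonneg ((Q n r).eval ((i + 1 : ℕ) : ℝ))]
      _ ≤ ∑ i ∈ range n, (‖P.trailingCoeff‖ * H) * ((Q n r).eval ((i + 1 : ℕ) : ℝ)) ^ 2 := by
          refine sum_le_sum_of_subset_of_nonneg (range_mono (by omega)) (fun i _ _ => ?_)
          positivity
      _ = _ := by rw [← mul_sum, mul_assoc]
  have h5 := le_of_mul_le_mul_left h2 ht
  rw [hnorm, hq] at h5
  have hA : (0 : ℝ) ≤ (n.choose r : ℝ) := by positivity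
  have hHA : 0 ≤ H * (n.choose r : ℝ) := by positivity
  nlinarith

/-- the ratio of the two binomial coefficients -/
theorem two_lt {n r : ℕ} {H : ℝ} (hH : 0 ≤ H) (hrn : r ≤ n)
    (h : ((n : ℝ) + 1 / 2) * Real.log (1 + H) < (r : ℝ) ^ 2) :
    (1 + H) * (n.choose r : ℝ) < ((n + r).choose r : ℝ) := by
  have hpos : ∀ i ∈ range r, (0 : ℝ) < (n : ℝ) - i := by
    intro i hi
    have h1 : i < n := lt_of_lt_of_le (mem_range.1 hi) hrn
    have h2 : (i : ℝ) < n := by exact_mod_cast h1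
    linarith
  have e1 : (r.factorial : ℝ) * (n.choose r : ℝ) = ∏ i ∈ range r, ((n : ℝ) - i) := by
    have h1 := Nat.descFactorial_eq_factorial_mul_choose n r
    rw [Nat.descFactorial_eq_prod_range] at h1
    have h2 : ((∏ i ∈ range r, (n - i) : ℕ) : ℝ) = ((r.factorial * n.choose r : ℕ) : ℝ) := by
      exact_mod_cast h1
    push_cast at h2
    rw [← h2]
    refine prod_congr rfl (fun i hi => ?_)
    have := mem_range.1 hi
    rw [Nat.cast_sub (by omega)]
  have e2 : (r.factorial : ℝ) * ((n + r).choose r : ℝ) = ∏ i ∈ range r, ((n : ℝ) + r - i) := by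
    have h1 := Nat.descFactorial_eq_factorial_mul_choose (n + r) r
    rw [Nat.descFactorial_eq_prod_range] at h1
    have h2 : ((∏ i ∈ range r, (n + r - i) : ℕ) : ℝ) =
        ((r.factorial * (n + r).choose r : ℕ) : ℝ) := by
      exact_mod_cast h1
    push_cast at h2
    rw [← h2]
    refine prod_congr rfl (fun i hi => ?_)
    have := mem_range.1 hi
    rw [Nat.cast_sub (by omega)]
    push_cast
    ring
  have e3 : ∏ i ∈ range r, ((n : ℝ) + r - i) =
      (∏ i ∈ range r, ((n : ℝ) - i)) * ∏ i ∈ range r, (1 + (r : ℝ) / ((n : ℝ) - i)) := by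
    rw [← prod_mul_distrib]
    refine prod_congr rfl (fun i hi => ?_)
    have := hpos i hi
    field_simp
    ring
  have hlog : Real.log (1 + H) < Real.log (∏ i ∈ range r, (1 + (r : ℝ) / ((n : ℝ) - i))) := by
    rw [Real.log_prod (fun i hi => by
      have := hpos i hi
      positivity)]
    set m : ℝ := 2 * (n : ℝ) + 1 with hm
    have hm0 : 0 < m := by positivity
    have h1 : ∀ i ∈ range r, 2 * (r : ℝ) * (2 / m - (2 * (n : ℝ) - 2 * i + r) / m ^ 2) ≤
        Real.log (1 + (r : ℝ) / ((n : ℝ) - i)) := by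
      intro i hi
      have hp := hpos i hi
      have hx : 0 ≤ (r : ℝ) / ((n : ℝ) - i) := by positivity
      refine le_trans ?_ (Real.le_log_one_add_of_nonneg hx)
      have ht : 0 < 2 * (n : ℝ) - 2 * i + r := by
        have : (0 : ℝ) ≤ r := by positivity
        linarith
      have e4 : 2 * ((r : ℝ) / ((n : ℝ) - i)) / ((r : ℝ) / ((n : ℝ) - i) + 2) =
          2 * r * (1 / (2 * (n : ℝ) - 2 * i + r)) := by
        have h5 : (r : ℝ) / ((n : ℝ) - i) + 2 = (2 * (n : ℝ) - 2 * i + r) / ((n : ℝ) - i) := by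
          field_simp
          ring
        rw [h5]
        field_simp
      rw [e4]
      refine mul_le_mul_of_nonneg_left ?_ (by positivity)
      rw [div_sub_div _ _ hm0.ne' (by positivity), div_le_div_iff₀ (by positivity) ht]
      have := sq_nonneg (2 * (n : ℝ) - 2 * i + r - m)
      nlinarith
    have h2 := sum_le_sum h1
    have h3 : ∑ i ∈ range r, 2 * (r : ℝ) * (2 / m - (2 * (n : ℝ) - 2 * i + r) / m ^ 2) =
        2 * (r : ℝ) ^ 2 / m := by
      rw [← mul_sum, sum_sub_distrib, ← sum_div (range r) (fun i : ℕ => 2 * (n : ℝ) - 2 * i + r)]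
      have h4 : ∑ i ∈ range r, (2 * (n : ℝ) - 2 * i + r) = r * m := by
        have h5 : ∀ s : ℕ, ∑ i ∈ range s, (2 * (n : ℝ) - 2 * i + r) =
            s * (2 * n + r) - s * (s - 1) := by
          intro s
          induction s with
          | zero => simp
          | succ s ih =>
            rw [sum_range_succ, ih]
            push_cast
            ring
        rw [h5, hm]
        ring
      rw [h4, sum_const, card_range, nsmul_eq_mul]
      field_simp
      try ring
    rw [h3] at h2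
    refine lt_of_lt_of_le ?_ h2
    rw [lt_div_iff₀ hm0, hm]
    linarith
  have hP : 1 + H < ∏ i ∈ range r, (1 + (r : ℝ) / ((n : ℝ) - i)) := by
    refine (Real.log_lt_log_iff (by positivity) ?_).1 hlog
    refine prod_pos (fun i hi => ?_)
    have := hpos i hi
    positivity
  have hprod : 0 < ∏ i ∈ range r, ((n : ℝ) - i) := prod_pos hpos
  have hf : (0 : ℝ) < (r.factorial : ℝ) := by positivity
  have : (r.factorial : ℝ) * ((1 + H) * (n.choose r : ℝ)) <
      (r.factorial : ℝ) * ((n + r).choose r : ℝ) := by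
    rw [e2, e3, ← mul_assoc, mul_comm (r.factorial : ℝ) (1 + H), mul_assoc, e1]
    nlinarith
  exact lt_of_mul_lt_mul_left this hf.le

/-- the bound -/
theorem main (n k : ℕ) (H : ℝ) (hH : 0 ≤ H) (P : ℂ[X]) (hn : P.natDegree ≤ n) (h0 : P ≠ 0)
    (h1 : ∀ j, j ≠ P.natTrailingDegree → ‖P.coeff j‖ ≤ H * ‖P.trailingCoeff‖)
    (hk : (X - 1) ^ k ∣ P) :
    k ≤ 2 * ⌊√(((n : ℝ) + 1 / 2) * Real.log (1 + H))⌋₊ := by
  set s := √(((n : ℝ) + 1 / 2) * Real.log (1 + H)) with hs
  have hlog2 : 0 ≤ Real.log (1 + H) := Real.log_nonneg (by linarith)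
  have hs2 : s ^ 2 = ((n : ℝ) + 1 / 2) * Real.log (1 + H) := Real.sq_sqrt (by positivity)
  have hs0 : 0 ≤ s := Real.sqrt_nonneg _
  have hlt : s < (⌊s⌋₊ : ℝ) + 1 := Nat.lt_floor_add_one s
  by_cases hr : ⌊s⌋₊ + 1 ≤ n
  · have h2 := order_le hH hk hn h0 h1 (r := ⌊s⌋₊ + 1) (by omega) hr (two_lt hH hr (by
      push_cast
      rw [← hs2]
      nlinarith))
    simpa using h2
  · have h2 : ((X - 1 : ℂ[X]) ^ k).natDegree ≤ P.natDegree := natDegree_le_of_dvd hk h0
    have h3 : ((X - 1 : ℂ[X]) ^ k).natDegree = k := by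
      have : (X - 1 : ℂ[X]) = X - C 1 := by simp
      rw [this, natDegree_pow, natDegree_X_sub_C, mul_one]
    omega

end Pool.Agent.Van2H
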