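import Mathlib

set_option autoImplicit false

/-!
The reproducing kernel at `0` of the polynomials of degree less than `r` on `{0, ..., n}` with
counting measure: explicit form and exact norm.
-/

open Finset Polynomial

namespace Pool.Agent.Van2H

/-- a form of the Vandermonde identity -/
theorem vand (n l j : ℕ) :
    ∑ x ∈ range (n + 1), x.choose l * (n - x).choose j = (n + 1).choose (l + j + 1) := by
  induction n generalizing j with
  | zero =>
    rcases l with _ | l
    · rcases j with _ | j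
      · simp
      · simp
        rw [Nat.choose_eq_zero_of_lt (by omega)]
    · simp
      rw [Nat.choose_eq_zero_of_lt (by omega)]
  | succ n ih =>
    rcases j with _ | j
    · rw [sum_range_succ]
      have h := ih 0
      simp only [Nat.choose_zero_right, mul_one, add_zero] at h ⊢
      rw [h, Nat.choose_succ_succ (n + 1) l, add_comm]
    · rw [sum_range_succ]
      have h1 : ∑ x ∈ range (n + 1), x.choose l * (n + 1 - x).choose (j + 1) =
          ∑ x ∈ range (n + 1), x.choose l * (n - x).choose j +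
          ∑ x ∈ range (n + 1), x.choose l * (n - x).choose (j + 1) := by
        rw [← sum_add_distrib]
        refine sum_congr rfl (fun x hx => ?_)
        have hx' : x ≤ n := by
          have := mem_range.1 hx
          omega
        have h2 : n + 1 - x = (n - x) + 1 := by omega
        rw [h2, Nat.choose_succ_succ, mul_add]
      rw [h1, ih j, ih (j + 1)]
      have h3 : n + 1 - (n + 1) = 0 := by omega
      rw [h3, Nat.choose_zero_succ, mul_zero, add_zero]
      have h4 : l + (j + 1) + 1 = (l + j + 1) + 1 := by ring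
      rw [h4, Nat.choose_succ_succ (n + 1) (l + j + 1)]

/-- alternating sums of the values of a polynomial of small degree vanish -/
theorem alt (r : ℕ) (P : ℝ[X]) (hP : P.natDegree < r) :
    ∑ l ∈ range (r + 1), (-1 : ℝ) ^ l * (r.choose l : ℝ) * P.eval (l : ℝ) = 0 := by
  have h := congrFun (Polynomial.fwdDiff_iter_eq_zero_of_degree_lt hP) 0
  rw [fwdDiff_iter_eq_sum_shift] at h
  have h2 : ∑ l ∈ range (r + 1), (-1 : ℝ) ^ l * (r.choose l : ℝ) * P.eval (l : ℝ) =
      (-1) ^ r * ∑ l ∈ range (r + 1), ((-1 : ℤ) ^ (r - l) * (r.choose l : ℤ)) •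
        P.eval (0 + l • (1 : ℝ)) := by
    rw [mul_sum]
    refine sum_congr rfl (fun l hl => ?_)
    have hl' : l ≤ r := by
      have := mem_range.1 hl
      omega
    have h3 : (-1 : ℝ) ^ r * (-1) ^ (r - l) = (-1) ^ l := by
      obtain ⟨d, rfl⟩ := Nat.exists_eq_add_of_le hl'
      rw [Nat.add_sub_cancel_left, pow_add, mul_assoc, ← pow_add, ← two_mul, pow_mul]
      simp
    simp only [zsmul_eq_mul, Int.cast_mul, Int.cast_pow, Int.cast_neg, Int.cast_one,
      Int.cast_natCast, nsmul_eq_mul, mul_one, zero_add]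
    rw [← h3]
    ring
  rw [h2]
  have h4 : ∑ l ∈ range (r + 1), ((-1 : ℤ) ^ (r - l) * (r.choose l : ℤ)) •
        P.eval (0 + l • (1 : ℝ)) = 0 := by simpa using h
  rw [h4, mul_zero]

/-- the coefficient `C (r - 1 + l, l) C (n - l, r - l)` with sign, at index `l + 1` -/
noncomputable def cf (n r l : ℕ) : ℝ :=
  (-1) ^ l * ((r + l).choose (l + 1) : ℝ) * ((n - (l + 1)).choose (r - (l + 1)) : ℝ)

/-- the kernel polynomial -/
noncomputable def Q (n r : ℕ) : ℝ[X] :=
  ∑ l ∈ range r, C (cf n r l / (l.factorial : ℝ)) * (descPochhammer ℝ l).comp (X - C 1)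

theorem natDegree_Q (n r : ℕ) : (Q n r).natDegree ≤ r - 1 := by
  unfold Q
  refine natDegree_sum_le_of_forall_le _ _ (fun l hl => ?_)
  have hl' := mem_range.1 hl
  refine (natDegree_C_mul_le _ _).trans ?_
  rw [natDegree_comp, natDegree_X_sub_C, mul_one, descPochhammer_natDegree]
  omega

theorem eval_Q_succ (n r x : ℕ) :
    (Q n r).eval ((x + 1 : ℕ) : ℝ) = ∑ l ∈ range r, cf n r l * (x.choose l : ℝ) := by
  unfold Q
  rw [eval_finsetSum]
  refine sum_congr rfl (fun l _ => ?_)
  rw [eval_mul, eval_C, eval_comp]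
  simp only [eval_sub, eval_X, eval_C, Nat.cast_add, Nat.cast_one, add_sub_cancel_right]
  rw [descPochhammer_eval_eq_descFactorial, Nat.descFactorial_eq_factorial_mul_choose]
  have : (l.factorial : ℝ) ≠ 0 := by positivity
  push_cast
  field_simp

theorem eval_Q_zero (n r : ℕ) :
    (Q n r).eval 0 = ∑ l ∈ range r, ((r + l).choose (l + 1) : ℝ) *
      ((n - (l + 1)).choose (r - (l + 1)) : ℝ) := by
  unfold Q
  rw [eval_finsetSum]
  refine sum_congr rfl (fun l _ => ?_)
  rw [eval_mul, eval_C, eval_comp]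
  simp only [eval_sub, eval_X, eval_C, zero_sub]
  have h1 : (descPochhammer ℝ l).eval (-1) = (-1) ^ l * (l.factorial : ℝ) := by
    have h := ascPochhammer_eval_neg_eq_descPochhammer ℝ (-1 : ℝ) l
    rw [neg_neg, ascPochhammer_eval_one] at h
    rw [h, ← mul_assoc, ← mul_pow]
    simp
  rw [h1]
  unfold cf
  have : (l.factorial : ℝ) ≠ 0 := by positivity
  have h2 : ((-1 : ℝ) ^ l) * (-1) ^ l = 1 := by rw [← mul_pow]; simp
  field_simp
  linear_combination (((r + l).choose (l + 1) : ℝ) *
    ((n - (l + 1)).choose (r - (l + 1)) : ℝ)) * h2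

/-- the value at `0` -/
theorem Q_zero {n r : ℕ} (hr : 1 ≤ r) (hn : r ≤ n) :
    (Q n r).eval 0 = ((n + r).choose r : ℝ) - (n.choose r : ℝ) := by
  rw [eval_Q_zero]
  have h := vand (n + r - 1) (r - 1) (n - r)
  have e1 : n + r - 1 + 1 = n + r := by omega
  have e2 : r - 1 + (n - r) + 1 = n := by omega
  rw [e1, e2] at h
  have h2 : ∑ x ∈ range (n + r), x.choose (r - 1) * (n + r - 1 - x).choose (n - r) =
      ∑ l ∈ range (r + 1), (r - 1 + l).choose (r - 1) * (n - l).choose (n - r) := by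
    have e3 : n + r = (r - 1) + ((r + 1) + (n - r)) := by omega
    rw [e3, sum_range_add, sum_range_add]
    have h3 : ∑ x ∈ range (r - 1), x.choose (r - 1) *
        ((r - 1) + ((r + 1) + (n - r)) - 1 - x).choose (n - r) = 0 := by
      refine sum_eq_zero (fun x hx => ?_)
      rw [Nat.choose_eq_zero_of_lt (mem_range.1 hx), zero_mul]
    have h4 : ∑ x ∈ range (n - r), (r - 1 + (r + 1 + x)).choose (r - 1) *
        ((r - 1) + ((r + 1) + (n - r)) - 1 - (r - 1 + (r + 1 + x))).choose (n - r) = 0 := by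
      refine sum_eq_zero (fun x hx => ?_)
      have := mem_range.1 hx
      rw [Nat.choose_eq_zero_of_lt (n := (r - 1) + ((r + 1) + (n - r)) - 1 -
        (r - 1 + (r + 1 + x))) (by omega), mul_zero]
    rw [h3, h4, zero_add, add_zero]
    refine sum_congr rfl (fun l _ => ?_)
    congr 2
    omega
  rw [h2] at h
  have h5 : ((n + r).choose r : ℝ) = ((n + r).choose n : ℝ) := by
    rw [Nat.choose_symm_add]
  rw [h5, ← h, sum_range_succ']
  push_cast
  have h6 : n - (n - r) = r := by omega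
  have h7 : ((n - 0).choose (n - r) : ℝ) = (n.choose r : ℝ) := by
    rw [Nat.sub_zero, Nat.choose_symm hn]
  rw [h7]
  simp only [add_zero, Nat.choose_self, Nat.cast_one, one_mul, add_sub_cancel_right]
  refine sum_congr rfl (fun l hl => ?_)
  have hl' := mem_range.1 hl
  have e4 : r - 1 + (l + 1) = r + l := by omega
  rw [e4]
  have e5 : (r + l).choose (l + 1) = (r + l).choose (r - 1) := by
    rw [← Nat.choose_symm (by omega : r - 1 ≤ r + l)]
    congr 1
    omega
  have e6 : (n - (l + 1)).choose (r - (l + 1)) = (n - (l + 1)).choose (n - r) := by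
    rw [← Nat.choose_symm (by omega : n - r ≤ n - (l + 1))]
    congr 1
    omega
  rw [e5, e6]

/-- hockey stick -/
theorem hockey (n l : ℕ) : ∑ x ∈ range n, x.choose l = n.choose (l + 1) := by
  induction n with
  | zero => simp
  | succ n ih => rw [sum_range_succ, ih, Nat.choose_succ_succ, add_comm]

/-- polynomial with values `C (r - 1 + l, r - 1)` -/
theorem alt_choose {r : ℕ} (hr : 1 ≤ r) :
    ∑ l ∈ range (r + 1), (-1 : ℝ) ^ l * (r.choose l : ℝ) * ((r - 1 + l).choose (r - 1) : ℝ) = 0 := by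
  have h := alt r (C (((r - 1).factorial : ℝ)⁻¹) *
    (descPochhammer ℝ (r - 1)).comp (X + C ((r - 1 : ℕ) : ℝ))) (by
      refine lt_of_le_of_lt (natDegree_C_mul_le _ _) ?_
      rw [natDegree_comp, natDegree_X_add_C, mul_one, descPochhammer_natDegree]
      omega)
  rw [← h]
  refine sum_congr rfl (fun l _ => ?_)
  rw [eval_mul, eval_C, eval_comp]
  simp only [eval_add, eval_X, eval_C]
  rw [← Nat.cast_add, descPochhammer_eval_eq_descFactorial,
    Nat.descFactorial_eq_factorial_mul_choose, add_comm l (r - 1)]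
  have : ((r - 1).factorial : ℝ) ≠ 0 := by positivity
  push_cast
  field_simp

/-- the sum of the values at `1, ..., n` -/
theorem Q_sum {n r : ℕ} (hr : 1 ≤ r) :
    ∑ x ∈ range n, (Q n r).eval ((x + 1 : ℕ) : ℝ) = (n.choose r : ℝ) := by
  simp_rw [eval_Q_succ]
  rw [sum_comm]
  have h1 : ∀ l ∈ range r, ∑ x ∈ range n, cf n r l * (x.choose l : ℝ) =
      (n.choose r : ℝ) * ((-1) ^ l * (r.choose (l + 1) : ℝ) *
        ((r - 1 + (l + 1)).choose (r - 1) : ℝ)) := by
    intro l hl
    have hl' := mem_range.1 hl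
    rw [← mul_sum, ← Nat.cast_sum, hockey]
    unfold cf
    have e4 : r - 1 + (l + 1) = r + l := by omega
    rw [e4]
    have e5 : (r + l).choose (l + 1) = (r + l).choose (r - 1) := by
      rw [← Nat.choose_symm (by omega : r - 1 ≤ r + l)]
      congr 1
      omega
    rw [e5]
    have e7 : (n.choose (l + 1) : ℝ) * ((n - (l + 1)).choose (r - (l + 1)) : ℝ) =
        (n.choose r : ℝ) * (r.choose (l + 1) : ℝ) := by
      have := Nat.choose_mul (n := n) (k := r) (s := l + 1) (by omega)
      exact_mod_cast this.symm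
    linear_combination ((-1 : ℝ) ^ l * ((r + l).choose (r - 1) : ℝ)) * e7
  rw [sum_congr rfl h1, ← mul_sum]
  have h2 := alt_choose hr
  rw [sum_range_succ'] at h2
  have h3 : ∑ l ∈ range r, (-1 : ℝ) ^ (l + 1) * (r.choose (l + 1) : ℝ) *
      ((r - 1 + (l + 1)).choose (r - 1) : ℝ) =
      - ∑ l ∈ range r, (-1 : ℝ) ^ l * (r.choose (l + 1) : ℝ) *
      ((r - 1 + (l + 1)).choose (r - 1) : ℝ) := by
    rw [← sum_neg_distrib]
    refine sum_congr rfl (fun l _ => ?_)
    rw [pow_succ]
    ring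
  rw [h3] at h2
  simp only [pow_zero, Nat.choose_zero_right, Nat.cast_one, add_zero, Nat.choose_self,
    mul_one] at h2
  have h4 : ∑ l ∈ range r, (-1 : ℝ) ^ l * (r.choose (l + 1) : ℝ) *
      ((r - 1 + (l + 1)).choose (r - 1) : ℝ) = 1 := by linarith
  rw [h4, mul_one]

/-- the product identity behind orthogonality -/
theorem ident {n r L j : ℕ} (hj : j + 2 ≤ r) (hL : L ≤ r) (hn : r ≤ n) :
    ((r - 1 + L).choose L : ℝ) * ((n - L).choose (r - L) : ℝ) * ((n + 1).choose (L + j + 1) : ℝ) *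
      ((r - 1).factorial : ℝ) =
    (r.choose L : ℝ) * (n.choose r : ℝ) * ((n : ℝ) + 1) * ((n - L).descFactorial j : ℝ) *
      ((L + (r - 1)).descFactorial (r - 2 - j) : ℝ) := by
  have hA : ((n - L).choose (r - L) : ℝ) * (n.choose L : ℝ) = (n.choose r : ℝ) * (r.choose L : ℝ) := by
    have := Nat.choose_mul (n := n) (k := r) (s := L) hL
    rw [mul_comm]
    exact_mod_cast this.symm
  have hB : ((n + 1).choose (L + j + 1) : ℝ) * ((L + j + 1).factorial : ℝ) =
      ((n : ℝ) + 1) * ((L.factorial : ℝ) * (n.choose L : ℝ)) * ((n - L).descFactorial j : ℝ) := by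
    have h1 := Nat.descFactorial_eq_factorial_mul_choose (n + 1) (L + j + 1)
    have h2 := Nat.succ_descFactorial_succ n (L + j)
    have h3 := Nat.descFactorial_mul_descFactorial (n := n) (k := L) (m := L + j) (by omega)
    have h4 := Nat.descFactorial_eq_factorial_mul_choose n L
    rw [Nat.add_sub_cancel_left] at h3
    have h5 : (n + 1).choose (L + j + 1) * (L + j + 1).factorial =
        (n + 1) * (L.factorial * n.choose L) * (n - L).descFactorial j := by
      rw [mul_comm, ← h1, h2, ← h3, h4]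
      ring
    exact_mod_cast h5
  have hC : ((r - 1 + L).choose L : ℝ) * (L.factorial : ℝ) * ((r - 1).factorial : ℝ) =
      ((r - 1 + L).factorial : ℝ) := by
    have h1 := Nat.choose_mul_factorial_mul_factorial (n := r - 1 + L) (k := L) (by omega)
    rw [Nat.add_sub_cancel] at h1
    exact_mod_cast h1
  have hD : ((L + (r - 1)).descFactorial (r - 2 - j) : ℝ) * ((L + j + 1).factorial : ℝ) =
      ((r - 1 + L).factorial : ℝ) := by
    have h1 := Nat.factorial_mul_descFactorial (n := L + (r - 1)) (k := r - 2 - j) (by omega)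
    have h2 : L + (r - 1) - (r - 2 - j) = L + j + 1 := by omega
    rw [h2, mul_comm] at h1
    rw [add_comm (r - 1) L]
    exact_mod_cast h1
  have hA0 : (n.choose L : ℝ) ≠ 0 := by
    have := Nat.choose_pos (n := n) (k := L) (by omega)
    positivity
  have hB0 : ((L + j + 1).factorial : ℝ) ≠ 0 := by positivity
  have hL0 : (L.factorial : ℝ) ≠ 0 := by positivity
  refine mul_right_cancel₀ (mul_ne_zero hA0 hB0) ?_
  generalize ((n - L).choose (r - L) : ℝ) = a1 at *
  generalize (n.choose L : ℝ) = a2 at *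
  generalize (n.choose r : ℝ) = a3 at *
  generalize (r.choose L : ℝ) = a4 at *
  generalize ((n + 1).choose (L + j + 1) : ℝ) = b1 at *
  generalize ((L + j + 1).factorial : ℝ) = b2 at *
  generalize ((n - L).descFactorial j : ℝ) = b3 at *
  generalize ((r - 1 + L).choose L : ℝ) = c1 at *
  generalize (L.factorial : ℝ) = c2 at *
  generalize ((r - 1).factorial : ℝ) = c3 at *
  generalize ((L + (r - 1)).descFactorial (r - 2 - j) : ℝ) = d1 at *
  generalize ((r - 1 + L).factorial : ℝ) = d2 at *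
  calc c1 * a1 * b1 * c3 * (a2 * b2) = (c1 * c3) * (a1 * a2) * (b1 * b2) := by ring
    _ = (c1 * c2 * c3) * (a3 * a4) * (((n : ℝ) + 1) * a2 * b3) := by rw [hA, hB]; ring
    _ = d2 * (a3 * a4) * (((n : ℝ) + 1) * a2 * b3) := by rw [hC]
    _ = (d1 * b2) * (a3 * a4) * (((n : ℝ) + 1) * a2 * b3) := by rw [hD]
    _ = a4 * a3 * ((n : ℝ) + 1) * b3 * d1 * (a2 * b2) := by ring

/-- orthogonality against a basis -/
theorem orth_choose {n r j : ℕ} (hj : j + 2 ≤ r) (hn : r ≤ n) :
    ∑ y ∈ range n, ((y : ℝ) + 1) * (Q n r).eval ((y + 1 : ℕ) : ℝ) *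
      ((n - (y + 1)).choose j : ℝ) = 0 := by
  simp_rw [eval_Q_succ, mul_sum, sum_mul]
  rw [sum_comm]
  have h1 : ∀ l ∈ range r, ∑ y ∈ range n, ((y : ℝ) + 1) * (cf n r l * (y.choose l : ℝ)) *
      ((n - (y + 1)).choose j : ℝ) =
      cf n r l * ((l + 1 : ℕ) : ℝ) * ((n + 1).choose ((l + 1) + j + 1) : ℝ) := by
    intro l _
    rw [← vand n (l + 1) j, sum_range_succ']
    simp only [Nat.choose_zero_succ, zero_mul, add_zero]
    push_cast
    rw [mul_sum]
    refine sum_congr rfl (fun y _ => ?_)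
    have h2 : ((y : ℝ) + 1) * (y.choose l : ℝ) = ((y + 1).choose (l + 1) : ℝ) * ((l : ℝ) + 1) := by
      have := Nat.add_one_mul_choose_eq y l
      exact_mod_cast this
    linear_combination (cf n r l * ((n - (y + 1)).choose j : ℝ)) * h2
  rw [sum_congr rfl h1]
  set K : ℝ := (n.choose r : ℝ) * ((n : ℝ) + 1) / ((r - 1).factorial : ℝ) with hK
  have hf0 : ((r - 1).factorial : ℝ) ≠ 0 := by positivity
  have h := alt r (C K * X * (descPochhammer ℝ j).comp (C (n : ℝ) - X) *
    (descPochhammer ℝ (r - 2 - j)).comp (X + C ((r - 1 : ℕ) : ℝ))) (by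
      refine lt_of_le_of_lt natDegree_mul_le ?_
      have e1 : (C K * X * (descPochhammer ℝ j).comp (C (n : ℝ) - X)).natDegree ≤ 1 + j := by
        refine natDegree_mul_le.trans ?_
        have e2 : (C K * X).natDegree ≤ 1 := (natDegree_C_mul_le _ _).trans natDegree_X_le
        have e3 : ((descPochhammer ℝ j).comp (C (n : ℝ) - X)).natDegree ≤ j := by
          rw [natDegree_comp]
          have e4 : (C (n : ℝ) - X : ℝ[X]).natDegree ≤ 1 := by
            refine (natDegree_sub_le _ _).trans ?_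
            simp
          calc _ ≤ (descPochhammer ℝ j).natDegree * 1 := Nat.mul_le_mul_left _ e4
            _ = j := by rw [mul_one, descPochhammer_natDegree]
        omega
      have e5 : ((descPochhammer ℝ (r - 2 - j)).comp (X + C ((r - 1 : ℕ) : ℝ))).natDegree ≤
          r - 2 - j := by
        rw [natDegree_comp, natDegree_X_add_C, mul_one, descPochhammer_natDegree]
      omega)
  rw [sum_range_succ'] at h
  have h0 : (C K * X * (descPochhammer ℝ j).comp (C (n : ℝ) - X) *
    (descPochhammer ℝ (r - 2 - j)).comp (X + C ((r - 1 : ℕ) : ℝ))).eval ((0 : ℕ) : ℝ) = 0 := by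
    simp
  rw [h0, mul_zero, add_zero] at h
  have h5 : ∑ l ∈ range r, cf n r l * ((l + 1 : ℕ) : ℝ) * ((n + 1).choose ((l + 1) + j + 1) : ℝ) =
      - ∑ l ∈ range r, (-1 : ℝ) ^ (l + 1) * (r.choose (l + 1) : ℝ) *
      (C K * X * (descPochhammer ℝ j).comp (C (n : ℝ) - X) *
    (descPochhammer ℝ (r - 2 - j)).comp (X + C ((r - 1 : ℕ) : ℝ))).eval ((l + 1 : ℕ) : ℝ) := by
    rw [← sum_neg_distrib]
    refine sum_congr rfl (fun l hl => ?_)
    have hl' := mem_range.1 hl
    have hid := ident (n := n) (r := r) (L := l + 1) (j := j) hj (by omega) hn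
    simp only [eval_mul, eval_C, eval_X, eval_comp, eval_sub, eval_add]
    rw [← Nat.cast_sub (by omega : l + 1 ≤ n), ← Nat.cast_add,
      descPochhammer_eval_eq_descFactorial, descPochhammer_eval_eq_descFactorial]
    unfold cf
    have e4 : r - 1 + (l + 1) = r + l := by omega
    rw [e4] at hid
    rw [hK, pow_succ]
    field_simp
    linear_combination hid
  rw [h5, h, neg_zero]

/-- Newton expansion -/
theorem newton (h : ℝ[X]) (m N : ℕ) (hN : h.natDegree < N) :
    h.eval (m : ℝ) = ∑ j ∈ range N, (m.choose j : ℝ) * (fwdDiff (1 : ℝ))^[j] (fun x => h.eval x) 0 := by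
  have h0 := shift_eq_sum_fwdDiff_iter (1 : ℝ) (fun x => h.eval x) m 0
  simp only [nsmul_eq_mul, mul_one, zero_add] at h0
  rw [h0]
  have h1 : ∑ j ∈ range (m + 1), (m.choose j : ℝ) * (fwdDiff (1 : ℝ))^[j] (fun x => h.eval x) 0 =
      ∑ j ∈ range (max (m + 1) N), (m.choose j : ℝ) *
        (fwdDiff (1 : ℝ))^[j] (fun x => h.eval x) 0 := by
    refine sum_subset (range_mono (le_max_left _ _)) (fun j _ hj => ?_)
    rw [mem_range, not_lt] at hj
    rw [Nat.choose_eq_zero_of_lt (by omega)]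
    simp
  have h2 : ∑ j ∈ range N, (m.choose j : ℝ) * (fwdDiff (1 : ℝ))^[j] (fun x => h.eval x) 0 =
      ∑ j ∈ range (max (m + 1) N), (m.choose j : ℝ) *
        (fwdDiff (1 : ℝ))^[j] (fun x => h.eval x) 0 := by
    refine sum_subset (range_mono (le_max_right _ _)) (fun j _ hj => ?_)
    rw [mem_range, not_lt] at hj
    have := congrFun (Polynomial.fwdDiff_iter_eq_zero_of_degree_lt (n := j) (P := h) (by omega)) 0
    have h3 : (fwdDiff (1 : ℝ))^[j] (fun x => h.eval x) 0 = 0 := this
    rw [h3, mul_zero]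
  rw [h1, h2]

/-- orthogonality -/
theorem orth {n r : ℕ} (hn : r ≤ n) (g : ℝ[X]) (hg : g.natDegree + 2 ≤ r) :
    ∑ y ∈ range n, ((y : ℝ) + 1) * (Q n r).eval ((y + 1 : ℕ) : ℝ) *
      g.eval ((y + 1 : ℕ) : ℝ) = 0 := by
  set h : ℝ[X] := g.comp (C (n : ℝ) - X) with hh
  have hd : h.natDegree < r - 1 := by
    rw [hh, natDegree_comp]
    have e4 : (C (n : ℝ) - X : ℝ[X]).natDegree ≤ 1 := by
      refine (natDegree_sub_le _ _).trans ?_
      simp
    have : g.natDegree * (C (n : ℝ) - X : ℝ[X]).natDegree ≤ g.natDegree * 1 :=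
      Nat.mul_le_mul_left _ e4
    omega
  have h1 : ∀ y ∈ range n, ((y : ℝ) + 1) * (Q n r).eval ((y + 1 : ℕ) : ℝ) *
      g.eval ((y + 1 : ℕ) : ℝ) = ∑ j ∈ range (r - 1), (fwdDiff (1 : ℝ))^[j] (fun x => h.eval x) 0 *
      (((y : ℝ) + 1) * (Q n r).eval ((y + 1 : ℕ) : ℝ) * ((n - (y + 1)).choose j : ℝ)) := by
    intro y hy
    have hy' := mem_range.1 hy
    have e1 : g.eval ((y + 1 : ℕ) : ℝ) = h.eval ((n - (y + 1) : ℕ) : ℝ) := by
      rw [hh, eval_comp]
      simp only [eval_sub, eval_C, eval_X]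
      congr 1
      rw [Nat.cast_sub (by omega)]
      ring
    rw [e1, newton h (n - (y + 1)) (r - 1) hd, mul_sum]
    refine sum_congr rfl (fun j _ => ?_)
    ring
  rw [sum_congr rfl h1, sum_comm]
  refine sum_eq_zero (fun j hj => ?_)
  have hj' := mem_range.1 hj
  rw [← mul_sum, orth_choose (by omega) hn, mul_zero]

/-- the exact norm -/
theorem Q_norm {n r : ℕ} (hr : 1 ≤ r) (hn : r ≤ n) :
    ∑ y ∈ range n, ((Q n r).eval ((y + 1 : ℕ) : ℝ)) ^ 2 =
      (((n + r).choose r : ℝ) - (n.choose r : ℝ)) * (n.choose r : ℝ) := by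
  have h0 := Q_zero hr hn
  have hs := Q_sum (n := n) hr
  have hdec : ∀ t : ℝ, (Q n r).eval t = (Q n r).eval 0 + t * (Q n r).divX.eval t := by
    intro t
    conv_lhs => rw [← divX_mul_X_add (Q n r)]
    rw [eval_add, eval_mul, eval_X, eval_C, ← coeff_zero_eq_eval_zero]
    ring
  have ho : ∑ y ∈ range n, ((y : ℝ) + 1) * (Q n r).eval ((y + 1 : ℕ) : ℝ) *
      (Q n r).divX.eval ((y + 1 : ℕ) : ℝ) = 0 := by
    by_cases hr2 : 2 ≤ r
    · refine orth hn _ ?_
      rw [natDegree_divX_eq_natDegree_tsub_one]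
      have := natDegree_Q n r
      omega
    · have hd : (Q n r).natDegree = 0 := by
        have := natDegree_Q n r
        omega
      have : (Q n r).divX = 0 := by
        rw [eq_C_of_natDegree_eq_zero hd, divX_C]
      rw [this]
      simp
  have h1 : ∀ y ∈ range n, ((Q n r).eval ((y + 1 : ℕ) : ℝ)) ^ 2 =
      (Q n r).eval 0 * (Q n r).eval ((y + 1 : ℕ) : ℝ) +
      ((y : ℝ) + 1) * (Q n r).eval ((y + 1 : ℕ) : ℝ) *
      (Q n r).divX.eval ((y + 1 : ℕ) : ℝ) := by
    intro y _
    have := hdec ((y + 1 : ℕ) : ℝ)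
    rw [sq]
    nth_rw 1 [this]
    push_cast
    ring
  rw [sum_congr rfl h1, sum_add_distrib, ho, add_zero, ← mul_sum, hs, h0]

end Pool.Agent.Van2H
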